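import Pool.Agent.Q160.TD.Wiggle

/-!
MP_d100af_an, Q1: every Cantor set `K` has a single Cantor partner for all finite trees.

The partner is a set of digit sums built by adapting the sizes of the gaps to `K`: at each stage the
gaps are so short, compared with the distances at which `K` is guaranteed to have a second point,
that every bi-Lipschitz image of a piece of `K` can avoid them. Circles around a wiggled pin are
graphs of bi-Lipschitz functions, and finite trees are built leaf by leaf.
-/

set_option autoImplicit false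

namespace Pool.Agent.Results.MP_d100af_an.OnePartnerAllTrees

open Set Filter Topology Metric

/-- Cantor sets in `ℝ`: nonempty, compact, totally disconnected, without isolated points. -/
structure IsCantorSet (C : Set ℝ) : Prop where
  nonempty : C.Nonempty
  compact : IsCompact C
  totallyDisconnected : IsTotallyDisconnected C
  no_isolated : ∀ x ∈ C, ∀ ε : ℝ, 0 < ε → ∃ y ∈ C, y ≠ x ∧ |y - x| < ε

/-- The Euclidean distance of two points of the plane. -/
noncomputable def eucl (y z : ℝ × ℝ) : ℝ := √((y.1 - z.1) ^ 2 + (y.2 - z.2) ^ 2)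

/-- The tree distance set `Δ^T(X)`, as a subset of `ℝ ^ (edges of T)`: the vectors of the distances
`|z v - z w|` along the edges, where `z` runs over the families of pairwise distinct points of `X`
indexed by the vertices. -/
def treeDistanceSet {V : Type} (T : SimpleGraph V) (X : Set (ℝ × ℝ)) : Set (T.edgeSet → ℝ) :=
  {d | ∃ z : V → ℝ × ℝ, Function.Injective z ∧ (∀ v, z v ∈ X) ∧
    ∀ (v w : V) (h : T.Adj v w), d ⟨s(v, w), h⟩ = eucl (z v) (z w)}

/-- The pinned tree distance set `Δ^T_y(X)` with root `v₀`: the same with `z v₀ = y`. -/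
def pinnedTreeDistanceSet {V : Type} (T : SimpleGraph V) (v₀ : V) (y : ℝ × ℝ)
    (X : Set (ℝ × ℝ)) : Set (T.edgeSet → ℝ) :=
  {d | ∃ z : V → ℝ × ℝ, Function.Injective z ∧ (∀ v, z v ∈ X) ∧ z v₀ = y ∧
    ∀ (v w : V) (h : T.Adj v w), d ⟨s(v, w), h⟩ = eucl (z v) (z w)}

lemma infinite_of_cantor {K : Set ℝ} (hK : IsCantorSet K) : K.Infinite := by
  intro hfin
  obtain ⟨x, hx⟩ := hK.nonempty
  have h1 : IsOpen (K \ {x})ᶜ := (hfin.subset diff_subset).isClosed.isOpen_compl
  obtain ⟨ε, hε, hball⟩ := Metric.isOpen_iff.1 h1 x (by simp)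
  obtain ⟨y, hy, hyx, hyε⟩ := hK.no_isolated x hx ε hε
  exact hball (by rwa [Metric.mem_ball, Real.dist_eq]) ⟨hy, hyx⟩

lemma exists_family {V : Type} [Finite V] (v₀ : V) {A : Set ℝ} (hA : A.Infinite) {a : ℝ}
    (ha : a ∈ A) : ∃ f : V → ℝ, Function.Injective f ∧ f v₀ = a ∧ ∀ v, f v ∈ A := by
  classical
  have h1 : (A \ {a}).Infinite := hA.diff (finite_singleton a)
  haveI : Infinite ↥(A \ {a}) := h1.to_subtype
  haveI := Fintype.ofFinite V
  obtain ⟨e⟩ : Nonempty (V ↪ ↥(A \ {a})) :=
    ⟨(Fintype.equivFin V).toEmbedding.trans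
      (Fin.valEmbedding.trans (Infinite.natEmbedding ↥(A \ {a})))⟩
  refine ⟨Function.update (fun v => (e v : ℝ)) v₀ a, ?_, Function.update_self _ _ _, ?_⟩
  · intro v w h
    by_cases hv : v = v₀
    · by_cases hw : w = v₀
      · rw [hv, hw]
      · rw [hv, Function.update_self, Function.update_of_ne hw] at h
        exact absurd h.symm (e w).2.2
    · by_cases hw : w = v₀
      · rw [hw, Function.update_self, Function.update_of_ne hv] at h
        exact absurd h (e v).2.2
      · rw [Function.update_of_ne hv, Function.update_of_ne hw] at h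
        exact e.injective (Subtype.ext h)
  · intro v
    by_cases hv : v = v₀
    · rw [hv, Function.update_self]
      exact ha
    · rw [Function.update_of_ne hv]
      exact (e v).2.1

/-- **Theorem (Q1).** For every Cantor set `K` there is a Cantor set `K'` such that
`Δ^T(K × K')` has nonempty interior for all finite trees `T` simultaneously. Moreover there is a
point `q` of `K'` such that for every `p` in `K`, every finite tree `T` and every choice of the root,
the pinned set `Δ^T_{(p,q)}(K × K')` has nonempty interior. -/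
theorem result (K : Set ℝ) (hK : IsCantorSet K) :
    ∃ K' : Set ℝ, IsCantorSet K' ∧
      (∀ (V : Type) [Finite V] (T : SimpleGraph V), T.IsTree →
        (interior (treeDistanceSet T (K ×ˢ K'))).Nonempty) ∧
      ∃ q ∈ K', ∀ p ∈ K, ∀ (V : Type) [Finite V] (T : SimpleGraph V), T.IsTree → ∀ v₀ : V,
        (interior (pinnedTreeDistanceSet T v₀ (p, q) (K ×ˢ K'))).Nonempty := by
  classical
  obtain ⟨par, hA⟩ := Pool.Agent.Q160.TD.exists_adapted hK.compact hK.no_isolated
  obtain ⟨q, hq⟩ := par.infinite_deep.nonempty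
  have main : ∀ p ∈ K, ∀ (V : Type) [Finite V] (T : SimpleGraph V), T.IsTree → ∀ v₀ : V,
        (interior (pinnedTreeDistanceSet T v₀ (p, q) (K ×ˢ par.C))).Nonempty := by
    intro p hp V _ T hT v₀
    haveI := Fintype.ofFinite V
    obtain ⟨f, hf, hf0, hfK⟩ := exists_family v₀ (infinite_of_cantor hK) hp
    obtain ⟨g, hg, hg0, hgD⟩ := exists_family v₀ par.infinite_deep hq
    let P : V → ℝ × ℝ := fun v => (f v, g v)
    obtain ⟨ε, hε, hsep⟩ : ∃ ε : ℝ, 0 < ε ∧ ∀ v w, v ≠ w → 2 * ε ≤ |f v - f w| := by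
      have h1 : ∀ᶠ ε : ℝ in 𝓝[>] 0, ∀ v w, v ≠ w → 2 * ε ≤ |f v - f w| := by
        rw [eventually_all]
        intro v
        rw [eventually_all]
        intro w
        by_cases h : v = w
        · exact Eventually.of_forall fun ε h2 => absurd h h2
        · have h2 : 0 < |f v - f w| := abs_pos.2 (sub_ne_zero.2 fun h3 => h (hf h3))
          filter_upwards [Ioo_mem_nhdsGT (half_pos h2)] with ε hε _
          linarith [hε.2]
      obtain ⟨ε, h2, h3⟩ := (h1.and self_mem_nhdsWithin).exists
      exact ⟨ε, h3, h2⟩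
    obtain ⟨δ, hδ, emb⟩ := Pool.Agent.Q160.TD.tree_embed hA (Fintype.card V) V T hT rfl v₀ P
      (fun v => ⟨hfK v, hgD v⟩) (fun v w h => ⟨fun h2 => h (hf h2), fun h2 => h (hg h2)⟩) ε hε
    let d₀ : T.edgeSet → ℝ := fun e =>
      Sym2.lift ⟨fun v w => Pool.Agent.Q160.TD.ed (P v) (P w),
        fun v w => Pool.Agent.Q160.TD.ed_comm _ _⟩ e.1
    refine ⟨d₀, mem_interior.2 ⟨Metric.ball d₀ δ, ?_, isOpen_ball, mem_ball_self hδ⟩⟩
    intro d hd
    rw [Metric.mem_ball, dist_pi_lt_iff hδ] at hd
    let t : V → V → ℝ := fun v w => if h : T.Adj v w then d ⟨s(v, w), h⟩ else 0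
    have ht : ∀ v w, ∀ h : T.Adj v w, t v w = d ⟨s(v, w), h⟩ := fun v w h => by
      simp only [t, h, dif_pos]
    obtain ⟨y, y1, y2, y3, y4⟩ := emb t (by
      intro v w
      by_cases h : T.Adj v w
      · rw [ht v w h, ht w v h.symm]
        congr 1
        exact Subtype.ext Sym2.eq_swap
      · have h' : ¬ T.Adj w v := fun h2 => h h2.symm
        simp only [t, h, h', dif_neg, not_false_eq_true]) (by
      intro v w h
      rw [ht v w h]
      exact hd ⟨s(v, w), h⟩)
    refine ⟨y, ?_, fun v => ⟨(y2 v).1, (y2 v).2⟩, ?_, ?_⟩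
    · intro v w hvw
      by_contra hne
      have h1 := (y3 v).1
      have h2 := (y3 w).1
      rw [hvw] at h1
      have h3 := hsep v w hne
      have h4 : |f v - f w| ≤ |(y w).1 - f v| + |(y w).1 - f w| := by
        have := abs_sub_le (f v) (y w).1 (f w)
        rwa [abs_sub_comm (f v) (y w).1] at this
      have h5 : |(y w).1 - f v| < ε := h1
      have h6 : |(y w).1 - f w| < ε := h2
      linarith
    · rw [y1]
      show (f v₀, g v₀) = (p, q)
      rw [hf0, hg0]
    · intro v w h
      rw [← ht v w h, ← y4 v w h]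
      rfl
  refine ⟨par.C, ⟨par.nonempty_C, par.isCompact_C, par.totallyDisconnected_C, par.perfect_C⟩,
    ?_, q, hq.mem, main⟩
  intro V _ T hT
  obtain ⟨p, hp⟩ := hK.nonempty
  obtain ⟨v₀⟩ := hT.connected.nonempty
  refine (main p hp V T hT v₀).mono (interior_mono ?_)
  rintro d ⟨z, h1, h2, -, h3⟩
  exact ⟨z, h1, h2, h3⟩

end Pool.Agent.Results.MP_d100af_an.OnePartnerAllTrees
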